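import Mathlib

set_option autoImplicit false

namespace Pool.Agent.Results.MP_8aa8ea_co.NotSelfPolar

/-- The real Euclidean plane. -/
abbrev Plane := EuclideanSpace ℝ (Fin 2)

/-- A combinatorial configuration of type (n_q). -/
structure Config (n q : ℕ) where
  /-- `inc i j` means that the point `i` is incident with the line `j` -/
  inc : Fin n → Fin n → Prop
  lines_through : ∀ i, {j | inc i j}.ncard = q
  points_on : ∀ j, {i | inc i j}.ncard = q
  unique_line : ∀ i i' j j', i ≠ i' → inc i j → inc i' j → inc i j' → inc i' j' → j = j'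

/-- Incidence as a symmetric relation on the disjoint union of points (left) and lines (right). -/
def Incident {n q : ℕ} (C : Config n q) : Fin n ⊕ Fin n → Fin n ⊕ Fin n → Prop
  | Sum.inl i, Sum.inr j => C.inc i j
  | Sum.inr j, Sum.inl i => C.inc i j
  | _, _ => False

/-- A selfduality: a permutation of the union of the point set and the line set which maps points
to lines and lines to points and preserves incidence. -/
def IsSelfduality {n q : ℕ} (C : Config n q) (δ : Equiv.Perm (Fin n ⊕ Fin n)) : Prop :=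
  (∀ i, ∃ j, δ (Sum.inl i) = Sum.inr j) ∧ (∀ j, ∃ i, δ (Sum.inr j) = Sum.inl i) ∧
  ∀ x y, Incident C (δ x) (δ y) ↔ Incident C x y

/-- The rank of a selfdual configuration: the least order of one of its selfdualities. -/
noncomputable def rank {n q : ℕ} (C : Config n q) : ℕ :=
  sInf {m | ∃ δ, IsSelfduality C δ ∧ orderOf δ = m}

/-- A realization of `C`, i.e. a geometric configuration of the Euclidean plane isomorphic to `C`:
pairwise distinct points, pairwise distinct straight lines, and a realized point lies on a realized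
line if and only if the two are incident in `C`. -/
structure Realization {n q : ℕ} (C : Config n q) where
  pt : Fin n → Plane
  ln : Fin n → AffineSubspace ℝ Plane
  pt_inj : Function.Injective pt
  ln_inj : Function.Injective ln
  ln_line : ∀ j, (ln j : Set Plane).Nonempty ∧ Module.finrank ℝ (ln j).direction = 1
  inc_iff : ∀ i j, pt i ∈ ln j ↔ C.inc i j

/-- The polar of the point `p ≠ c` in the circle with centre `c` and radius `r`. -/
def polarLine (c : Plane) (r : ℝ) (p : Plane) : Set Plane :=
  {x | inner ℝ (x - c) (p - c) = r ^ 2}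

/-- No point of the configuration is the centre, and no line passes through the centre. -/
def PolarDefined {n q : ℕ} {C : Config n q} (R : Realization C) (c : Plane) : Prop :=
  (∀ i, R.pt i ≠ c) ∧ (∀ j, c ∉ R.ln j)

/-- The points of the polar configuration: the poles of the lines. -/
def polarPoints {n q : ℕ} {C : Config n q} (R : Realization C) (c : Plane) (r : ℝ) : Set Plane :=
  {x | x ≠ c ∧ ∃ j, polarLine c r x = (R.ln j : Set Plane)}

/-- The lines of the polar configuration: the polars of the points. -/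
def polarLines {n q : ℕ} {C : Config n q} (R : Realization C) (c : Plane) (r : ℝ) :
    Set (Set Plane) :=
  Set.range fun i => polarLine c r (R.pt i)

/-- The polar configuration is congruent to the configuration itself: some isometry of the plane
maps its points onto the points and its lines onto the lines of the configuration. -/
def CongruentToPolar {n q : ℕ} {C : Config n q} (R : Realization C) (c : Plane) (r : ℝ) : Prop :=
  ∃ g : Plane ≃ᵢ Plane,
    g '' polarPoints R c r = Set.range R.pt ∧
    (fun s : Set Plane => g '' s) '' polarLines R c r = Set.range fun j => (R.ln j : Set Plane)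

/-! ### The configuration -/

def nbr : Fin 12 → List (Fin 12) := ![[1, 2, 3], [0, 2, 4], [0, 1, 5], [0, 3, 7], [1, 4, 9],
  [2, 5, 8], [7, 10, 11], [3, 6, 11], [5, 9, 11], [4, 8, 10], [6, 9, 10], [6, 7, 8]]

def inc12 (i j : Fin 12) : Prop := i ∈ nbr j

instance (i j : Fin 12) : Decidable (inc12 i j) := by unfold inc12; infer_instance

theorem inc12_symm : ∀ i j : Fin 12, inc12 i j ↔ inc12 j i := by decide +kernel

def C12 : Config 12 3 where
  inc := inc12
  lines_through := by
    intro i
    rw [Set.ncard_eq_toFinset_card']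
    revert i; decide +kernel
  points_on := by
    intro j
    rw [Set.ncard_eq_toFinset_card']
    revert j; decide +kernel
  unique_line := by decide +kernel

/-- the selfduality exchanging the point `i` and the line `i` -/
def swp : Equiv.Perm (Fin 12 ⊕ Fin 12) := Equiv.sumComm _ _

theorem swp_selfduality : IsSelfduality C12 swp := by
  refine ⟨fun i => ⟨i, rfl⟩, fun j => ⟨j, rfl⟩, ?_⟩
  rintro (i | i) (j | j)
  · exact Iff.rfl
  · exact inc12_symm _ _
  · exact inc12_symm _ _
  · exact Iff.rfl

theorem rank_eq_two : rank C12 = 2 := by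
  apply IsLeast.csInf_eq
  constructor
  · refine ⟨swp, swp_selfduality, ?_⟩
    apply orderOf_eq_prime
    · ext x
      rcases x with i | i <;> rfl
    · intro h
      have h1 : swp (Sum.inl 0) = (1 : Equiv.Perm (Fin 12 ⊕ Fin 12)) (Sum.inl 0) := by rw [h]
      simp [swp] at h1
  · rintro m ⟨δ, hδ, rfl⟩
    have h0 : 0 < orderOf δ := orderOf_pos δ
    have h1 : orderOf δ ≠ 1 := by
      intro h
      rw [orderOf_eq_one_iff] at h
      obtain ⟨j, hj⟩ := hδ.1 0
      rw [h] at hj
      simp at hj
    omega

/-! ### The only automorphism is the identity -/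

def tri (x y z : Fin 12) : Prop := ∃ j : Fin 12, inc12 x j ∧ inc12 y j ∧ inc12 z j

instance (x y z : Fin 12) : Decidable (tri x y z) := by unfold tri; infer_instance

/-- the third point on the line through two distinct collinear points -/
def third (x y : Fin 12) : Fin 12 :=
  ((List.finRange 12).find? (fun z => decide (z ≠ x ∧ z ≠ y ∧ tri x y z))).getD 0

def adj (x y : Fin 12) : Bool := decide (x ≠ y ∧ ∃ j : Fin 12, inc12 x j ∧ inc12 y j)

theorem third_eq : ∀ x y z : Fin 12, x ≠ y → x ≠ z → y ≠ z → tri x y z → z = third x y := by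
  decide +kernel

theorem adj_of : ∀ x y z : Fin 12, x ≠ y → tri x y z → adj x y = true := by
  rintro x y z h ⟨j, h1, h2, _⟩
  simp only [adj, decide_eq_true_eq]
  exact ⟨h, j, h1, h2⟩

def img (a b c : Fin 12) : Fin 12 → Fin 12 :=
  let e5 := third a b
  let e4 := third a c
  let e3 := third b c
  let e9 := third b e4
  let e8 := third c e5
  let e7 := third a e3
  let e11 := third e5 e9
  let e10 := third e4 e8
  let e6 := third e3 e11
  ![a, b, c, e3, e4, e5, e6, e7, e8, e9, e10, e11]

def allLines (s : Fin 12 → Fin 12) : Bool :=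
  decide (∀ j : Fin 12, ∀ x ∈ nbr j, ∀ y ∈ nbr j, x ≠ y → adj (s x) (s y) = true)

def isId (s : Fin 12 → Fin 12) : Bool := decide (∀ i, s i = i)

theorem search : ∀ a b : Fin 12, adj a b = true → ∀ c : Fin 12, adj a c = true → adj b c = true →
    allLines (img a b c) = true → isId (img a b c) = true := by
  decide +kernel

theorem aut_trivial (s t : Equiv.Perm (Fin 12)) (h : ∀ i j, inc12 (s i) (t j) ↔ inc12 i j) :
    (∀ i, s i = i) := by
  have htri : ∀ x y z, tri x y z → tri (s x) (s y) (s z) := by
    rintro x y z ⟨j, h1, h2, h3⟩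
    exact ⟨t j, (h x j).mpr h1, (h y j).mpr h2, (h z j).mpr h3⟩
  have hth : ∀ x y z, x ≠ y → x ≠ z → y ≠ z → tri x y z → s z = third (s x) (s y) := by
    intro x y z h1 h2 h3 h4
    exact third_eq _ _ _ (s.injective.ne h1) (s.injective.ne h2) (s.injective.ne h3) (htri _ _ _ h4)
  have hadj : ∀ x y z, x ≠ y → tri x y z → adj (s x) (s y) = true := by
    intro x y z h1 h2
    exact adj_of _ _ _ (s.injective.ne h1) (htri _ _ _ h2)
  have e5 : s 5 = third (s 0) (s 1) := hth 0 1 5 (by decide) (by decide) (by decide) (by decide)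
  have e4 : s 4 = third (s 0) (s 2) := hth 0 2 4 (by decide) (by decide) (by decide) (by decide)
  have e3 : s 3 = third (s 1) (s 2) := hth 1 2 3 (by decide) (by decide) (by decide) (by decide)
  have e9 : s 9 = third (s 1) (s 4) := hth 1 4 9 (by decide) (by decide) (by decide) (by decide)
  have e8 : s 8 = third (s 2) (s 5) := hth 2 5 8 (by decide) (by decide) (by decide) (by decide)
  have e7 : s 7 = third (s 0) (s 3) := hth 0 3 7 (by decide) (by decide) (by decide) (by decide)
  have e11 : s 11 = third (s 5) (s 9) := hth 5 9 11 (by decide) (by decide) (by decide) (by decide)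
  have e10 : s 10 = third (s 4) (s 8) := hth 4 8 10 (by decide) (by decide) (by decide) (by decide)
  have e6 : s 6 = third (s 3) (s 11) := hth 3 11 6 (by decide) (by decide) (by decide) (by decide)
  have himg : (s : Fin 12 → Fin 12) = img (s 0) (s 1) (s 2) := by
    funext i
    simp only [img, ← e5, ← e4, ← e3, ← e9, ← e8, ← e7, ← e11, ← e10, ← e6]
    fin_cases i <;> rfl
  have ha : allLines s = true := by
    simp only [allLines, decide_eq_true_eq]
    intro j x hx y hy hxy
    exact hadj x y x hxy ⟨j, hx, hy, hx⟩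
  have hid : isId s = true := by
    rw [himg] at ha ⊢
    exact search _ _ (hadj 0 1 5 (by decide) (by decide)) _ (hadj 0 2 4 (by decide) (by decide))
      (hadj 1 2 3 (by decide) (by decide)) ha
  simpa only [isId, decide_eq_true_eq] using hid

/-! ### Plane geometry -/

theorem mem_line_iff {P Q R : Plane} (h : P ≠ Q) :
    R ∈ line[ℝ, P, Q] ↔ (Q 0 - P 0) * (R 1 - P 1) = (Q 1 - P 1) * (R 0 - P 0) := by
  rw [mem_affineSpan_pair_iff_exists_lineMap_eq]
  constructor
  · rintro ⟨r, rfl⟩
    simp [AffineMap.lineMap_apply]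
    ring
  · intro e
    have hne : Q 0 - P 0 ≠ 0 ∨ Q 1 - P 1 ≠ 0 := by
      by_contra hc
      push Not at hc
      apply h
      ext k
      fin_cases k
      · simp; linarith [hc.1]
      · simp; linarith [hc.2]
    rcases hne with h0 | h1
    · refine ⟨(R 0 - P 0) / (Q 0 - P 0), ?_⟩
      ext k
      fin_cases k
      · simp [AffineMap.lineMap_apply]; field_simp; ring
      · simp [AffineMap.lineMap_apply]; field_simp; linarith
    · refine ⟨(R 1 - P 1) / (Q 1 - P 1), ?_⟩
      ext k
      fin_cases k
      · simp [AffineMap.lineMap_apply]; field_simp; linarith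
      · simp [AffineMap.lineMap_apply]; field_simp; ring

theorem line_finrank {P Q : Plane} (h : P ≠ Q) :
    Module.finrank ℝ (line[ℝ, P, Q]).direction = 1 := by
  rw [direction_affineSpan, vectorSpan_pair_rev]
  exact finrank_span_singleton (by simpa [sub_eq_zero] using h.symm)

theorem collinear_of_mem {ℓ : AffineSubspace ℝ Plane} (h : Module.finrank ℝ ℓ.direction = 1)
    {a b c : Plane} (ha : a ∈ ℓ) (hb : b ∈ ℓ) (hc : c ∈ ℓ) : Collinear ℝ {a, b, c} := by
  rw [collinear_iff_finrank_le_one, ← h]
  have hs : ({a, b, c} : Set Plane) ⊆ ℓ := by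
    intro x hx
    simp at hx
    rcases hx with rfl | rfl | rfl <;> assumption
  have : vectorSpan ℝ ({a, b, c} : Set Plane) ≤ ℓ.direction := by
    have := vectorSpan_mono ℝ hs
    simpa [AffineSubspace.direction] using this
  exact Submodule.finrank_mono this

theorem polarLine_inj {c : Plane} {r : ℝ} (hr : 0 < r) {p p' : Plane} (hp : p ≠ c) (hp' : p' ≠ c)
    (h : polarLine c r p = polarLine c r p') : p = p' := by
  have key : ∀ p q : Plane, p ≠ c → polarLine c r p = polarLine c r q →
      inner ℝ (p - c) (q - c) = inner ℝ (p - c) (p - c) := by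
    intro p q hp h
    have hn : inner ℝ (p - c) (p - c) ≠ 0 := by
      rw [inner_self_ne_zero]
      exact sub_ne_zero.mpr hp
    have hx : c + (r ^ 2 / inner ℝ (p - c) (p - c)) • (p - c) ∈ polarLine c r p := by
      simp only [polarLine, Set.mem_ofPred_eq, add_sub_cancel_left, inner_smul_left]
      simp only [conj_trivial]
      field_simp
    rw [h] at hx
    simp only [polarLine, Set.mem_ofPred_eq, add_sub_cancel_left, inner_smul_left] at hx
    simp only [conj_trivial] at hx
    field_simp at hx
    exact hx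
  have h1 := key p p' hp h
  have h2 := key p' p hp' h.symm
  have h3 : inner ℝ (p' - c) (p - c) = inner ℝ (p - c) (p' - c) := real_inner_comm _ _
  generalize hu : p - c = u at *
  generalize hv : p' - c = v at *
  have h4 : inner ℝ (u - v) (u - v) = (0 : ℝ) := by
    rw [inner_sub_left, inner_sub_right, inner_sub_right]
    linarith
  rw [inner_self_eq_zero, sub_eq_zero] at h4
  rw [← hu, ← hv] at h4
  exact sub_left_injective h4

/-- The sign argument: if `b` lies on the line through `a, a'`, `a` and `a'` are conjugate, `b` is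
selfconjugate, then the values of the form at `a` and `a'` have opposite signs. -/
theorem sign_lemma (f : Plane ≃ᵢ Plane) (c : Plane) (r : ℝ) {a a' b : Plane}
    (hcol : b ∈ line[ℝ, a, a']) (hba : b ≠ a) (hba' : b ≠ a')
    (h1 : inner ℝ (f a - c) (a' - c) = r ^ 2) (h2 : inner ℝ (f a' - c) (a - c) = r ^ 2)
    (h3 : inner ℝ (f b - c) (b - c) = r ^ 2)
    (h4 : inner ℝ (f a - c) (a - c) ≠ r ^ 2) (h5 : inner ℝ (f a' - c) (a' - c) ≠ r ^ 2) :
    (inner ℝ (f a - c) (a - c) - r ^ 2) * (inner ℝ (f a' - c) (a' - c) - r ^ 2) < 0 := by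
  rw [mem_affineSpan_pair_iff_exists_lineMap_eq] at hcol
  obtain ⟨t, rfl⟩ := hcol
  have hf : f (AffineMap.lineMap a a' t) = AffineMap.lineMap (f a) (f a') t :=
    AffineMap.apply_lineMap (f.toRealAffineIsometryEquiv.toAffineEquiv.toAffineMap) a a' t
  have e1 : f (AffineMap.lineMap a a' t) - c = (1 - t) • (f a - c) + t • (f a' - c) := by
    rw [hf, AffineMap.lineMap_apply]
    simp only [vsub_eq_sub, vadd_eq_add]
    module
  have e2 : (AffineMap.lineMap a a' t : Plane) - c = (1 - t) • (a - c) + t • (a' - c) := by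
    rw [AffineMap.lineMap_apply]
    simp only [vsub_eq_sub, vadd_eq_add]
    module
  rw [e1, e2] at h3
  simp only [inner_add_left, inner_add_right, inner_smul_left, inner_smul_right, conj_trivial] at h3
  rw [h1, h2] at h3
  have ht0 : t ≠ 0 := by
    rintro rfl
    exact hba (AffineMap.lineMap_apply_zero a a')
  have ht1 : t ≠ 1 := by
    rintro rfl
    exact hba' (AffineMap.lineMap_apply_one a a')
  set A := inner ℝ (f a - c) (a - c) - r ^ 2 with hA
  set B := inner ℝ (f a' - c) (a' - c) - r ^ 2 with hB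
  have hA0 : A ≠ 0 := sub_ne_zero.mpr h4
  have hB0 : B ≠ 0 := sub_ne_zero.mpr h5
  have hsum : (1 - t) ^ 2 * A + t ^ 2 * B = 0 := by
    rw [hA, hB]
    linarith [h3]
  have h1t : 0 < (1 - t) ^ 2 := by
    have : 1 - t ≠ 0 := sub_ne_zero.mpr (Ne.symm ht1)
    positivity
  have h2t : 0 < t ^ 2 := by positivity
  by_contra hc
  push Not at hc
  have h6 : 0 < A * B := lt_of_le_of_ne hc (Ne.symm (mul_ne_zero hA0 hB0))
  have h7 : (1 - t) ^ 2 * A ^ 2 + t ^ 2 * (A * B) = 0 := by
    have : (1 - t) ^ 2 * A ^ 2 + t ^ 2 * (A * B) = A * ((1 - t) ^ 2 * A + t ^ 2 * B) := by ring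
    rw [this, hsum, mul_zero]
  have h8 : 0 < A ^ 2 := by positivity
  have := mul_pos h1t h8
  have := mul_pos h2t h6
  linarith

/-! ### A rational realization -/

def xq : Fin 12 → ℚ := ![3, 2, -1, 1/2, 1/3, 1, 0, 1/4, 2, -1, 1, -1/2]
def yq : Fin 12 → ℚ := ![3, 1, 0, 1/2, 1, -1, 1/2, 1/4, -3/2, 1, 0, 1/2]
def pa : Fin 12 → Fin 12 := ![1, 0, 0, 0, 1, 2, 7, 3, 5, 4, 6, 6]
def pb : Fin 12 → Fin 12 := ![2, 2, 1, 3, 4, 5, 10, 6, 9, 8, 9, 7]

theorem coords_inj : ∀ i j : Fin 12, xq i = xq j → yq i = yq j → i = j := by decide +kernel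

theorem coords_det : ∀ i j : Fin 12,
    ((xq (pb j) - xq (pa j)) * (yq i - yq (pa j)) = (yq (pb j) - yq (pa j)) * (xq i - xq (pa j)))
      ↔ inc12 i j := by decide +kernel

noncomputable def rpt (i : Fin 12) : Plane := !₂[(xq i : ℝ), (yq i : ℝ)]

theorem rpt_inj : Function.Injective rpt := by
  intro i j h
  have h0 : rpt i 0 = rpt j 0 := by rw [h]
  have h1 : rpt i 1 = rpt j 1 := by rw [h]
  simp only [rpt, PiLp.toLp_apply, Matrix.cons_val_zero, Matrix.cons_val_one] at h0 h1
  exact coords_inj i j (by exact_mod_cast h0) (by exact_mod_cast h1)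

theorem rne (j : Fin 12) : rpt (pa j) ≠ rpt (pb j) := by
  intro h
  have h1 := rpt_inj h
  have h2 : ∀ j : Fin 12, pa j ≠ pb j := by decide
  exact h2 j h1

noncomputable def rln (j : Fin 12) : AffineSubspace ℝ Plane := line[ℝ, rpt (pa j), rpt (pb j)]

theorem rinc (i j : Fin 12) : rpt i ∈ rln j ↔ inc12 i j := by
  rw [rln, mem_line_iff (rne j), ← coords_det i j]
  simp only [rpt, PiLp.toLp_apply, Matrix.cons_val_zero, Matrix.cons_val_one]
  exact_mod_cast Iff.rfl

theorem sep : ∀ j j' : Fin 12, (∀ i, inc12 i j ↔ inc12 i j') → j = j' := by decide +kernel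

noncomputable def R12 : Realization C12 where
  pt := rpt
  ln := rln
  pt_inj := rpt_inj
  ln_inj := by
    intro j j' h
    apply sep
    intro i
    rw [← rinc, ← rinc, h]
  ln_line := by
    intro j
    exact ⟨⟨rpt (pa j), left_mem_affineSpan_pair ℝ _ _⟩, line_finrank (rne j)⟩
  inc_iff := rinc

/-! ### No realization is congruent to its polar -/

theorem not_congruent (R : Realization C12) (c : Plane) (r : ℝ) (hr : 0 < r)
    (hdef : PolarDefined R c) : ¬ CongruentToPolar R c r := by
  rintro ⟨g, hg1, hg2⟩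
  -- the polar of the point `i` is mapped to the line `α i`
  have hα : ∀ i, ∃ j, g '' polarLine c r (R.pt i) = (R.ln j : Set Plane) := by
    intro i
    have h1 : g '' polarLine c r (R.pt i) ∈ (fun s : Set Plane => g '' s) '' polarLines R c r :=
      ⟨_, ⟨i, rfl⟩, rfl⟩
    rw [hg2] at h1
    obtain ⟨j, hj⟩ := h1
    exact ⟨j, hj.symm⟩
  choose α hα using hα
  have hαinj : Function.Injective α := by
    intro i i' h
    have h1 : g '' polarLine c r (R.pt i) = g '' polarLine c r (R.pt i') := by rw [hα, hα, h]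
    exact R.pt_inj (polarLine_inj hr (hdef.1 i) (hdef.1 i') (Set.image_injective.mpr g.injective h1))
  -- the point `i` is the image of the pole of the line `γ i`
  have hγ : ∀ i, ∃ j, polarLine c r (g.symm (R.pt i)) = (R.ln j : Set Plane) ∧
      g.symm (R.pt i) ≠ c := by
    intro i
    have h1 : R.pt i ∈ g '' polarPoints R c r := by rw [hg1]; exact ⟨i, rfl⟩
    obtain ⟨x, ⟨hx, j, hj⟩, hgx⟩ := h1
    have h2 : g.symm (R.pt i) = x := by rw [← hgx, IsometryEquiv.symm_apply_apply]
    rw [h2]
    exact ⟨j, hj, hx⟩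
  choose γ hγ using hγ
  have hγinj : Function.Injective γ := by
    intro i i' h
    have h1 := polarLine_inj hr (hγ i).2 (hγ i').2 (by rw [(hγ i).1, (hγ i').1, h])
    exact R.pt_inj (g.symm.injective h1)
  have hinc : ∀ k i, inc12 k (γ i) ↔ inc12 i (α k) := by
    intro k i
    have h1 : inc12 k (γ i) ↔ R.pt k ∈ R.ln (γ i) := (R.inc_iff k (γ i)).symm
    have h2 : inc12 i (α k) ↔ R.pt i ∈ R.ln (α k) := (R.inc_iff i (α k)).symm
    rw [h1, h2, ← SetLike.mem_coe, ← SetLike.mem_coe, ← (hγ i).1, ← hα k]
    have h3 : R.pt i = g (g.symm (R.pt i)) := (IsometryEquiv.apply_symm_apply _ _).symm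
    conv_rhs => rw [h3, g.injective.mem_set_image]
    simp only [polarLine, Set.mem_ofPred_eq]
    rw [real_inner_comm]
  let s : Equiv.Perm (Fin 12) := Equiv.ofBijective α (Finite.injective_iff_bijective.mp hαinj)
  let u : Equiv.Perm (Fin 12) := Equiv.ofBijective γ (Finite.injective_iff_bijective.mp hγinj)
  have haut : ∀ i j, inc12 (s i) (u.symm j) ↔ inc12 i j := by
    intro i j
    have h1 : j = γ (u.symm j) := (u.apply_symm_apply j).symm
    have h2 := hinc i (u.symm j)
    rw [← h1] at h2
    rw [h2, inc12_symm]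
    exact Iff.rfl
  have hs := aut_trivial s u.symm haut
  have hline : ∀ i, g '' polarLine c r (R.pt i) = (R.ln i : Set Plane) := by
    intro i
    have : α i = i := hs i
    rw [hα i, this]
  have hform : ∀ k i, inc12 k i ↔ inner ℝ (g.symm (R.pt k) - c) (R.pt i - c) = r ^ 2 := by
    intro k i
    rw [show inc12 k i ↔ R.pt k ∈ R.ln i from (R.inc_iff k i).symm, ← SetLike.mem_coe, ← hline i]
    have h3 : R.pt k = g (g.symm (R.pt k)) := (IsometryEquiv.apply_symm_apply _ _).symm
    conv_lhs => rw [h3, g.injective.mem_set_image]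
    exact Iff.rfl
  have hon : ∀ a a' b : Fin 12, a ≠ a' → ∀ j, inc12 a j → inc12 a' j → inc12 b j →
      R.pt b ∈ line[ℝ, R.pt a, R.pt a'] := by
    intro a a' b haa j h1 h2 h3
    have hc := collinear_of_mem (R.ln_line j).2 ((R.inc_iff _ _).mpr h1) ((R.inc_iff _ _).mpr h2)
      ((R.inc_iff _ _).mpr h3)
    exact hc.mem_affineSpan_of_mem_of_ne (by simp) (by simp) (by simp) (R.pt_inj.ne haa)
  have hsign : ∀ a a' b j : Fin 12, a ≠ a' → b ≠ a → b ≠ a' → inc12 a j → inc12 a' j →
      inc12 b j → inc12 a a' → inc12 a' a → inc12 b b → ¬ inc12 a a → ¬ inc12 a' a' →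
      (inner ℝ (g.symm (R.pt a) - c) (R.pt a - c) - r ^ 2) *
        (inner ℝ (g.symm (R.pt a') - c) (R.pt a' - c) - r ^ 2) < 0 := by
    intro a a' b j h1 h2 h3 i1 i2 i3 i4 i5 i6 i7 i8
    exact sign_lemma g.symm c r (hon a a' b h1 j i1 i2 i3) (R.pt_inj.ne h2) (R.pt_inj.ne h3)
      ((hform _ _).mp i4) ((hform _ _).mp i5) ((hform _ _).mp i6)
      (fun hh => i7 ((hform _ _).mpr hh)) (fun hh => i8 ((hform _ _).mpr hh))
  have s12 := hsign 1 2 3 0 (by decide) (by decide) (by decide) (by decide) (by decide) (by decide)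
    (by decide) (by decide) (by decide) (by decide) (by decide)
  have s02 := hsign 0 2 4 1 (by decide) (by decide) (by decide) (by decide) (by decide) (by decide)
    (by decide) (by decide) (by decide) (by decide) (by decide)
  have s01 := hsign 0 1 5 2 (by decide) (by decide) (by decide) (by decide) (by decide) (by decide)
    (by decide) (by decide) (by decide) (by decide) (by decide)
  set b0 := inner ℝ (g.symm (R.pt 0) - c) (R.pt 0 - c) - r ^ 2
  set b1 := inner ℝ (g.symm (R.pt 1) - c) (R.pt 1 - c) - r ^ 2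
  set b2 := inner ℝ (g.symm (R.pt 2) - c) (R.pt 2 - c) - r ^ 2
  have h1 : 0 < (b1 * b2) * (b0 * b2) := mul_pos_of_neg_of_neg s12 s02
  have h2 : (b1 * b2) * (b0 * b2) * (b0 * b1) < 0 := mul_neg_of_pos_of_neg h1 s01
  have h3 : (b1 * b2) * (b0 * b2) * (b0 * b1) = (b0 * b1 * b2) ^ 2 := by ring
  rw [h3] at h2
  exact absurd h2 (not_lt.mpr (sq_nonneg _))

/-- There is a selfdual geometric configuration of rank 2 (in fact a (12_3) configuration) none of
whose realizations is congruent to its polar in any circle. -/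
theorem result :
    ∃ (n q : ℕ) (C : Config n q), Nonempty (Realization C) ∧ rank C = 2 ∧
      ∀ (R : Realization C) (c : Plane) (r : ℝ), 0 < r → PolarDefined R c →
        ¬ CongruentToPolar R c r :=
  ⟨12, 3, C12, ⟨R12⟩, rank_eq_two, not_congruent⟩

end Pool.Agent.Results.MP_8aa8ea_co.NotSelfPolar
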